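import Mathlib

/-!
# The Katowice problem (Axiom Omega): the remainders of `ω` and `ω₁` are never homeomorphic

Write `X^*` for the space of nonprincipal ultrafilters on the set `X` (the Stone-Cech remainder of
the discrete space `X`). We prove in an elementary way (only choice is used, no extra axiom) that
for uncountable `X` there is no homeomorphism `F : X^* → ℕ^*`.

Idea of the proof. Suppose `F` exists. It induces a correspondence `A ~ a` between subsets of `X`
and of `ℕ` modulo finite sets (`A ∈ p ↔ a ∈ F p`).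

1. (`transfer`) For `g : X → ℕ` there is `f : ℕ → ℕ` with `g⁻¹{n} ~ f⁻¹{n}` for all `n`.
2. (`agree`) For every `z ⊆ ℕ` there is a countable `C ⊆ X` such that for all `p ∌ C`:
   `z ∈ g(p) ↔ z ∈ f(F p)`. Indeed the difference of the two sets corresponds to a set meeting
   every fibre of `g` in a finite set.
3. (`noImage`) For every `g : X → ℕ` there is a countable `C` with `F p ≠ g(p)` for all `p ∌ C`:
   outside a countable set `f m < m` on `F p`; take for `z` a colour class of a 2-colouring
   with `col (f m) ≠ col m` whenever `f m < m`, and use 2.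
4. Partition `X` into uncountably many countably infinite sets `H d`, let `H d ~ h d ⊆ ℕ` and let
   `g` map every `H d` injectively into `h d`; let `f` be as in 1. Claim (`bad_countable`): for all
   but countably many `d`, `g(p) = f(F p)` for all `p ∈ (H d)^*`. Otherwise pick bad `p_d` for
   uncountably many `d`; let `u_d, s_d ∈ X^*` be the points with `F u_d = g(p_d)`,
   `F s_d = f(F p_d)`. Then `H d ∈ u_d ≠ s_d`, so there is `Z_d ⊆ H d` in `u_d` not in `s_d`. The
   combinatorial lemma `exists_uncountable_disjoint` gives an uncountable set `E` of indices such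
   that `Z = ⋃_{d ∈ E} Z_d` is in `u_d` and not in `s_d` for all `d ∈ E`. With `Z ~ z` this
   contradicts 2 for `z`, at uncountably many `d`.
5. `f` is finite to one on `h d`, so it is injective on an infinite `Q ⊆ h d`; for `q_d ∋ Q` and
   `p_d = F⁻¹ q_d` we get from 4 that `F p_d = k_d(g(p_d))` with `k_d` an inverse of `f` on `Q`. So
   `F p_d = g'(p_d)` with `g' = k_d ∘ g` on `H d`, for uncountably many `d`, contradicting 3.
-/

namespace Pool.Agent.Results.MP_671f97_gt.Katowice

open Filter Set Topology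

universe u v

/-- nonprincipal ultrafilters -/
abbrev Rem (X : Type u) : Type u := {p : Ultrafilter X // ∀ x : X, p ≠ pure x}

lemma Rem.finite_notMem {X : Type u} (p : Rem X) {s : Set X} (hs : s.Finite) : s ∉ p.1 := by
  intro h
  obtain ⟨x, -, hx⟩ := Ultrafilter.eq_pure_of_finite_mem hs h
  exact p.2 x hx

lemma exists_rem_of_infinite {X : Type u} {s : Set X} (hs : s.Infinite) :
    ∃ p : Rem X, s ∈ p.1 := by
  have hne : (cofinite ⊓ 𝓟 s : Filter X).NeBot := by
    rw [Filter.inf_principal_neBot_iff]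
    intro U hU
    rw [mem_cofinite] at hU
    by_contra hcon
    rw [Set.not_nonempty_iff_eq_empty] at hcon
    apply hs
    apply hU.subset
    intro x hx hxU
    have : x ∈ U ∩ s := ⟨hxU, hx⟩
    rw [hcon] at this
    exact this
  refine ⟨⟨Ultrafilter.of (cofinite ⊓ 𝓟 s), ?_⟩, ?_⟩
  · intro x hx
    have h1 : ({x}ᶜ : Set X) ∈ Ultrafilter.of (cofinite ⊓ 𝓟 s) := by
      apply Ultrafilter.of_le (cofinite ⊓ 𝓟 s)
      exact mem_inf_of_left (by simp)
    rw [hx] at h1
    simp at h1
  · apply Ultrafilter.of_le (cofinite ⊓ 𝓟 s)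
    exact mem_inf_of_right (mem_principal_self s)

section core

variable {X : Type u} (F : Rem X ≃ Rem ℕ)
  (h1 : ∀ A : Set X, ∃ a : Set ℕ, ∀ p : Rem X, A ∈ p.1 ↔ a ∈ (F p).1)
  (h2 : ∀ a : Set ℕ, ∃ A : Set X, ∀ p : Rem X, A ∈ p.1 ↔ a ∈ (F p).1)

include h1 in
lemma transfer (g : X → ℕ) :
    ∃ f : ℕ → ℕ, ∀ (n : ℕ) (p : Rem X), g ⁻¹' {n} ∈ p.1 ↔ f ⁻¹' {n} ∈ (F p).1 := by
  classical
  choose a ha using fun n : ℕ => h1 (g ⁻¹' {n})
  let f : ℕ → ℕ := fun m => if h : ∃ n, m ∈ a n then Nat.find h else m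
  refine ⟨f, fun n p => ?_⟩
  rw [ha n p]
  constructor
  · intro hn
    have hj : ∀ j ∈ Finset.range n, (a j)ᶜ ∈ (F p).1 := by
      intro j hj
      rw [Finset.mem_range] at hj
      rw [Ultrafilter.compl_mem_iff_notMem]
      intro hj'
      have e1 := (ha j p).2 hj'
      have e2 := (ha n p).2 hn
      have e3 : g ⁻¹' {j} ∩ g ⁻¹' {n} ∈ p.1 := inter_mem e1 e2
      have e4 : g ⁻¹' {j} ∩ g ⁻¹' {n} = ∅ := by
        ext x
        simp only [mem_inter_iff, mem_preimage, mem_singleton_iff, mem_empty_iff_false, iff_false]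
        rintro ⟨rfl, h⟩
        omega
      rw [e4] at e3
      exact Ultrafilter.empty_notMem e3
    have hall : (⋂ j ∈ Finset.range n, (a j)ᶜ) ∈ (F p).1 := by
      have := (Filter.biInter_finset_mem (f := ((F p).1 : Filter ℕ)) (Finset.range n)
        (s := fun j => (a j)ᶜ)).2 hj
      exact this
    filter_upwards [hn, hall] with m hm hm2
    simp only [mem_iInter, mem_compl_iff, Finset.mem_range] at hm2
    have hex : ∃ n, m ∈ a n := ⟨n, hm⟩
    simp only [mem_preimage, mem_singleton_iff, f]
    rw [dif_pos hex, Nat.find_eq_iff]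
    exact ⟨hm, fun j hj => hm2 j hj⟩
  · intro hn
    have hsub : f ⁻¹' {n} ⊆ a n ∪ {n} := by
      intro m hm
      simp only [mem_preimage, mem_singleton_iff, f] at hm
      by_cases hex : ∃ n, m ∈ a n
      · rw [dif_pos hex] at hm
        left
        rw [← hm]
        exact Nat.find_spec hex
      · rw [dif_neg hex] at hm
        right
        exact hm
    have h3 : a n ∪ {n} ∈ (F p).1 := mem_of_superset hn hsub
    rcases Ultrafilter.union_mem_iff.1 h3 with h4 | h4
    · exact h4
    · exact absurd h4 ((F p).finite_notMem (finite_singleton n))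

include h2 in
/-- a set all of whose intersections with the fibres of `f` are finite on the `ℕ` side comes from
a countable set. -/
lemma countable_of_fibres (g : X → ℕ) (f : ℕ → ℕ)
    (hgf : ∀ (n : ℕ) (p : Rem X), g ⁻¹' {n} ∈ p.1 ↔ f ⁻¹' {n} ∈ (F p).1)
    (D : Set ℕ) (hD : ∀ (n : ℕ) (p : Rem X), D ∈ (F p).1 → f ⁻¹' {n} ∈ (F p).1 → False) :
    ∃ C : Set X, C.Countable ∧ ∀ p : Rem X, C ∈ p.1 ↔ D ∈ (F p).1 := by
  obtain ⟨C, hC⟩ := h2 D
  refine ⟨C, ?_, hC⟩
  have hfin : ∀ n, (C ∩ g ⁻¹' {n}).Finite := by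
    intro n
    by_contra hinf
    obtain ⟨p, hp⟩ := exists_rem_of_infinite (X := X) hinf
    have hp1 : C ∈ p.1 := mem_of_superset hp inter_subset_left
    have hp2 : g ⁻¹' {n} ∈ p.1 := mem_of_superset hp inter_subset_right
    exact hD n p ((hC p).1 hp1) ((hgf n p).1 hp2)
  have hU : C = ⋃ n, C ∩ g ⁻¹' {n} := by
    ext x
    simp
  rw [hU]
  exact countable_iUnion fun n => (hfin n).countable

include h1 h2 in
lemma agree (g : X → ℕ) (f : ℕ → ℕ)
    (hgf : ∀ (n : ℕ) (p : Rem X), g ⁻¹' {n} ∈ p.1 ↔ f ⁻¹' {n} ∈ (F p).1) (z : Set ℕ) :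
    ∃ C : Set X, C.Countable ∧
      ∀ p : Rem X, C ∉ p.1 → (g ⁻¹' z ∈ p.1 ↔ f ⁻¹' z ∈ (F p).1) := by
  obtain ⟨y, hy⟩ := h1 (g ⁻¹' z)
  have key : ∀ (D : Set ℕ), (∀ (n : ℕ) (p : Rem X), D ∈ (F p).1 → f ⁻¹' {n} ∈ (F p).1 → False) →
    ∃ C : Set X, C.Countable ∧ ∀ p : Rem X, C ∈ p.1 ↔ D ∈ (F p).1 :=
    fun D hD => countable_of_fibres F h2 g f hgf D hD
  obtain ⟨C, hC, hC2⟩ := key ((y \ f ⁻¹' z) ∪ (f ⁻¹' z \ y)) (by
    intro n p hD hn
    have hgn := (hgf n p).2 hn
    by_cases hnz : n ∈ z
    · have a1 : g ⁻¹' z ∈ p.1 := mem_of_superset hgn (fun x hx => by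
        simp only [mem_preimage, mem_singleton_iff] at hx ⊢
        rw [hx]; exact hnz)
      have a2 : y ∈ (F p).1 := (hy p).1 a1
      have a3 : ((y \ f ⁻¹' z) ∪ (f ⁻¹' z \ y)) ∩ (f ⁻¹' {n} ∩ y) ∈ (F p).1 :=
        inter_mem hD (inter_mem hn a2)
      have a4 : ((y \ f ⁻¹' z) ∪ (f ⁻¹' z \ y)) ∩ (f ⁻¹' {n} ∩ y) = ∅ := by
        ext m
        simp only [mem_inter_iff, mem_union, Set.mem_sdiff, mem_preimage, mem_singleton_iff,
          mem_empty_iff_false, iff_false]
        rintro ⟨h | h, h', h''⟩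
        · rw [h'] at h
          exact h.2 hnz
        · exact h.2 h''
      rw [a4] at a3
      exact Ultrafilter.empty_notMem a3
    · have a1 : (g ⁻¹' z)ᶜ ∈ p.1 := mem_of_superset hgn (fun x hx => by
        simp only [mem_preimage, mem_singleton_iff, mem_compl_iff] at hx ⊢
        rw [hx]; exact hnz)
      have a1' : g ⁻¹' z ∉ p.1 := (Ultrafilter.compl_mem_iff_notMem).1 a1
      have a2 : yᶜ ∈ (F p).1 := by
        rw [Ultrafilter.compl_mem_iff_notMem]
        exact fun h => a1' ((hy p).2 h)
      have a3 : ((y \ f ⁻¹' z) ∪ (f ⁻¹' z \ y)) ∩ (f ⁻¹' {n} ∩ yᶜ) ∈ (F p).1 :=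
        inter_mem hD (inter_mem hn a2)
      have a4 : ((y \ f ⁻¹' z) ∪ (f ⁻¹' z \ y)) ∩ (f ⁻¹' {n} ∩ yᶜ) = ∅ := by
        ext m
        simp only [mem_inter_iff, mem_union, Set.mem_sdiff, mem_preimage, mem_singleton_iff,
          mem_empty_iff_false, iff_false, mem_compl_iff]
        rintro ⟨h | h, h', h''⟩
        · exact h'' h.1
        · rw [h'] at h
          exact hnz h.1
      rw [a4] at a3
      exact Ultrafilter.empty_notMem a3)
  refine ⟨C, hC, fun p hp => ?_⟩
  rw [hC2 p, Ultrafilter.union_mem_iff, not_or] at hp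
  obtain ⟨q1, q2⟩ := hp
  rw [hy p]
  constructor
  · intro h
    by_contra h'
    exact q1 (inter_mem h ((Ultrafilter.compl_mem_iff_notMem).2 h'))
  · intro h
    by_contra h'
    exact q2 (inter_mem h ((Ultrafilter.compl_mem_iff_notMem).2 h'))

/-- two-colouring of the decreasing edges of a function -/
noncomputable def col (f : ℕ → ℕ) : ℕ → Bool := fun m =>
  if h : f m < m then !(col f (f m)) else true
termination_by m => m
decreasing_by exact h

lemma col_eq (f : ℕ → ℕ) {m : ℕ} (h : f m < m) : col f m = !(col f (f m)) := by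
  rw [col, dif_pos h]

include h1 h2 in
lemma noImage (g : X → ℕ) :
    ∃ C : Set X, C.Countable ∧ ∀ p : Rem X, C ∉ p.1 → (F p).1 ≠ p.1.map g := by
  obtain ⟨f, hgf⟩ := transfer F h1 g
  obtain ⟨C0, hC0, hC0'⟩ := countable_of_fibres F h2 g f hgf {m | m ≤ f m} (by
    intro n p hD hn
    have a1 : {m | m ≤ f m} ∩ f ⁻¹' {n} ∈ (F p).1 := inter_mem hD hn
    refine (F p).finite_notMem ((finite_Iic n).subset ?_) a1
    intro m hm
    simp only [mem_inter_iff, mem_ofPred_eq, mem_preimage, mem_singleton_iff] at hm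
    simp only [mem_Iic]
    omega)
  obtain ⟨Cz, hCz, hCz'⟩ := agree F h1 h2 g f hgf {m | col f m = true}
  refine ⟨C0 ∪ Cz, hC0.union hCz, fun p hp heq => ?_⟩
  rw [Ultrafilter.union_mem_iff, not_or, hC0' p] at hp
  obtain ⟨hp0, hpz⟩ := hp
  have hlt : {m | m ≤ f m}ᶜ ∈ (F p).1 := (Ultrafilter.compl_mem_iff_notMem).2 hp0
  have hiff := hCz' p hpz
  have hiff2 : {m | col f m = true} ∈ (F p).1 ↔ g ⁻¹' {m | col f m = true} ∈ p.1 := by
    rw [heq, Ultrafilter.mem_map]
  rw [← hiff2] at hiff
  by_cases hz : {m | col f m = true} ∈ (F p).1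
  · have hz2 := hiff.1 hz
    have : {m | col f m = true} ∩ (f ⁻¹' {m | col f m = true} ∩ {m | m ≤ f m}ᶜ) ∈ (F p).1 :=
      inter_mem hz (inter_mem hz2 hlt)
    have he : {m | col f m = true} ∩ (f ⁻¹' {m | col f m = true} ∩ {m | m ≤ f m}ᶜ) = ∅ := by
      ext m
      simp only [mem_inter_iff, mem_ofPred_eq, mem_preimage, mem_compl_iff, mem_empty_iff_false,
        iff_false, not_le]
      rintro ⟨b1, b2, b3⟩
      rw [col_eq f b3, b2] at b1
      simp at b1
    rw [he] at this
    exact Ultrafilter.empty_notMem this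
  · have hz2 : f ⁻¹' {m | col f m = true} ∉ (F p).1 := fun h => hz (hiff.2 h)
    have : {m | col f m = true}ᶜ ∩ ((f ⁻¹' {m | col f m = true})ᶜ ∩ {m | m ≤ f m}ᶜ) ∈ (F p).1 :=
      inter_mem ((Ultrafilter.compl_mem_iff_notMem).2 hz)
        (inter_mem ((Ultrafilter.compl_mem_iff_notMem).2 hz2) hlt)
    have he : {m | col f m = true}ᶜ ∩ ((f ⁻¹' {m | col f m = true})ᶜ ∩ {m | m ≤ f m}ᶜ) = ∅ := by
      ext m
      simp only [mem_inter_iff, mem_ofPred_eq, mem_preimage, mem_compl_iff, mem_empty_iff_false,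
        iff_false, not_le]
      rintro ⟨b1, b2, b3⟩
      rw [col_eq f b3] at b1
      simp only [Bool.not_eq_true] at b2
      rw [b2] at b1
      simp at b1
    rw [he] at this
    exact Ultrafilter.empty_notMem this

end core

/-- The combinatorial lemma: a free uncountable set for an intersection preserving map. -/
lemma exists_uncountable_disjoint {I : Type u} [Uncountable I] (T : Set I → Set I)
    (hT : ∀ E E', T (E ∩ E') = T E ∩ T E') (h1 : ∀ i, i ∉ T {i}) :
    ∃ E : Set I, ¬ E.Countable ∧ ∀ i ∈ E, i ∉ T E := by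
  classical
  by_contra hcon
  push Not at hcon
  obtain ⟨e⟩ : Nonempty (I ≃ I × I) := by
    have h : Cardinal.mk I * Cardinal.mk I = Cardinal.mk I :=
      Cardinal.mul_eq_self (Cardinal.aleph0_le_mk I)
    rw [Cardinal.mul_def] at h
    exact (Cardinal.eq.1 h.symm)
  have hmono : ∀ E E', E ⊆ E' → T E ⊆ T E' := by
    intro E E' h
    have h3 := hT E E'
    rw [inter_eq_left.2 h] at h3
    rw [h3]
    exact inter_subset_right
  have hQ : ∀ i, ¬ ({x | (e x).1 = i} : Set I).Countable := by
    intro i hc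
    have hinj : InjOn (fun j : I => e.symm (i, j)) univ := by
      intro a _ b _ hab
      have := e.symm.injective hab
      exact (Prod.mk.inj this).2
    have hm : MapsTo (fun j : I => e.symm (i, j)) univ {x | (e x).1 = i} := by
      intro a _
      show (e (e.symm (i, a))).1 = i
      rw [Equiv.apply_symm_apply]
    have := hm.countable_of_injOn hinj hc
    exact not_countable (countable_univ_iff.1 this)
  choose q hq1 hq2 using fun i => hcon {x | (e x).1 = i} (hQ i)
  have hqinj : Function.Injective q := by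
    intro a b hab
    have ha : (e (q a)).1 = a := hq1 a
    have hb : (e (q b)).1 = b := hq1 b
    rw [← ha, ← hb, hab]
  have hQ' : (range q \ T (range q)).Countable := by
    by_contra hnc
    obtain ⟨i, hi, hi'⟩ := hcon _ hnc
    exact hi.2 (hmono _ _ sdiff_subset hi')
  have hex : ∃ i, q i ∈ T (range q) := by
    by_contra hno
    push Not at hno
    have hsub : range q ⊆ range q \ T (range q) := by
      rintro _ ⟨i, rfl⟩
      exact ⟨⟨i, rfl⟩, hno i⟩
    have hc := hQ'.mono hsub
    have : (univ : Set I).Countable := by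
      have hm : MapsTo q univ (range q) := fun a _ => ⟨a, rfl⟩
      exact hm.countable_of_injOn hqinj.injOn hc
    exact not_countable (countable_univ_iff.1 this)
  obtain ⟨i, hi⟩ := hex
  have h5 : q i ∈ T (range q ∩ {x | (e x).1 = i}) := by
    rw [hT]
    exact ⟨hi, hq2 i⟩
  have h6 : range q ∩ {x | (e x).1 = i} = {q i} := by
    ext x
    constructor
    · rintro ⟨⟨j, rfl⟩, hj⟩
      have hj1 : (e (q j)).1 = i := hj
      have hj2 : (e (q j)).1 = j := hq1 j
      have : j = i := by rw [← hj2, hj1]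
      rw [this]
      rfl
    · rintro rfl
      exact ⟨⟨i, rfl⟩, hq1 i⟩
  rw [h6] at h5
  exact h1 _ h5

section main

variable {X : Type u} (F : Rem X ≃ Rem ℕ)
  (h1 : ∀ A : Set X, ∃ a : Set ℕ, ∀ p : Rem X, A ∈ p.1 ↔ a ∈ (F p).1)
  (h2 : ∀ a : Set ℕ, ∃ A : Set X, ∀ p : Rem X, A ∈ p.1 ↔ a ∈ (F p).1)

/-- the columns of an indexing of `X` by `X × ℕ` -/
def colm (e : X ≃ X × ℕ) (d : X) : Set X := {x | (e x).1 = d}

lemma countable_hit (e : X ≃ X × ℕ) (C : Set X) (hC : C.Countable) :
    {d | (C ∩ colm e d).Nonempty}.Countable := by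
  have : {d | (C ∩ colm e d).Nonempty} ⊆ (fun x => (e x).1) '' C := by
    rintro d ⟨x, hx, hxd⟩
    exact ⟨x, hx, hxd⟩
  exact (hC.image _).mono this

include h1 h2 in
/-- For all but countably many columns, `g` and `f ∘ F` agree. -/
lemma bad_countable (e : X ≃ X × ℕ) (h : X → Set ℕ)
    (hh : ∀ (d : X) (p : Rem X), colm e d ∈ p.1 ↔ h d ∈ (F p).1)
    (g : X → ℕ) (hginj : ∀ d, InjOn g (colm e d)) (hgmem : ∀ d, ∀ x ∈ colm e d, g x ∈ h d)
    (f : ℕ → ℕ) (hgf : ∀ (n : ℕ) (p : Rem X), g ⁻¹' {n} ∈ p.1 ↔ f ⁻¹' {n} ∈ (F p).1) :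
    {d | ∃ p : Rem X, colm e d ∈ p.1 ∧ p.1.map g ≠ (F p).1.map f}.Countable := by
  classical
  by_contra hunc
  set B : Set X := {d | ∃ p : Rem X, colm e d ∈ p.1 ∧ p.1.map g ≠ (F p).1.map f} with hB
  have : Uncountable B := by
    rw [← not_countable_iff]
    exact fun hc => hunc hc
  choose p hp1 hp2 using fun d : B => d.2
  have hno : ∀ (d : B) (n : ℕ), g ⁻¹' {n} ∉ (p d).1 := by
    intro d n hn
    have h3 : colm e d ∩ g ⁻¹' {n} ∈ (p d).1 := inter_mem (hp1 d) hn
    refine (p d).finite_notMem (Set.Subsingleton.finite ?_) h3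
    rintro a ⟨ha1, ha2⟩ b ⟨hb1, hb2⟩
    apply hginj d ha1 hb1
    simp only [mem_preimage, mem_singleton_iff] at ha2 hb2
    rw [ha2, hb2]
  have hu : ∀ d : B, ∀ n : ℕ, (p d).1.map g ≠ pure n := by
    intro d n hn
    apply hno d n
    rw [← Ultrafilter.mem_map, hn]
    simp
  have hs : ∀ d : B, ∀ n : ℕ, (F (p d)).1.map f ≠ pure n := by
    intro d n hn
    apply hno d n
    rw [hgf n (p d), ← Ultrafilter.mem_map, hn]
    simp
  let u : B → Rem X := fun d => F.symm ⟨(p d).1.map g, hu d⟩
  let s : B → Rem X := fun d => F.symm ⟨(F (p d)).1.map f, hs d⟩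
  have hFu : ∀ d, (F (u d)).1 = (p d).1.map g := fun d => by simp [u]
  have hFs : ∀ d, (F (s d)).1 = (F (p d)).1.map f := fun d => by simp [s]
  have hcu : ∀ d, colm e d ∈ (u d).1 := by
    intro d
    rw [hh, hFu, Ultrafilter.mem_map]
    exact mem_of_superset (hp1 d) (fun x hx => hgmem d x hx)
  have hne : ∀ d, (u d).1 ≠ (s d).1 := by
    intro d heq
    apply hp2 d
    rw [← hFu, ← hFs, Subtype.ext heq]
  have hZ : ∀ d : B, ∃ Z : Set X, Z ⊆ colm e d ∧ Z ∈ (u d).1 ∧ Z ∉ (s d).1 := by
    intro d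
    have : ∃ Z : Set X, Z ∈ (u d).1 ∧ Z ∉ (s d).1 := by
      by_contra hcon
      push Not at hcon
      apply hne d
      apply Ultrafilter.coe_le_coe.1
      · intro Z hZ
        by_contra hZ2
        exact (Ultrafilter.compl_mem_iff_notMem.1 (hcon _ (Ultrafilter.compl_mem_iff_notMem.2 hZ2)))
          hZ
    obtain ⟨Z, hZ1, hZ2⟩ := this
    refine ⟨Z ∩ colm e d, inter_subset_right, inter_mem hZ1 (hcu d), fun h => hZ2 ?_⟩
    exact mem_of_superset h inter_subset_left
  choose Z hZc hZu hZs using hZ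
  have hdisj : ∀ E E' : Set B, (⋃ d ∈ E ∩ E', Z d) = (⋃ d ∈ E, Z d) ∩ (⋃ d ∈ E', Z d) := by
    intro E E'
    ext x
    simp only [mem_iUnion, mem_inter_iff, exists_prop]
    constructor
    · rintro ⟨d, ⟨hd, hd'⟩, hx⟩
      exact ⟨⟨d, hd, hx⟩, ⟨d, hd', hx⟩⟩
    · rintro ⟨⟨d, hd, hx⟩, ⟨d', hd', hx'⟩⟩
      have e1 : (e x).1 = d := hZc d hx
      have e2 : (e x).1 = d' := hZc d' hx'
      have : d = d' := Subtype.ext (by rw [← e1, e2])
      subst this
      exact ⟨d, ⟨hd, hd'⟩, hx⟩
  obtain ⟨E, hE, hEs⟩ := exists_uncountable_disjoint (I := B)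
    (fun E => {d | (⋃ d' ∈ E, Z d') ∈ (s d).1}) (by
      intro E E'
      ext d
      show (⋃ d' ∈ E ∩ E', Z d') ∈ (s d).1 ↔
        (⋃ d' ∈ E, Z d') ∈ (s d).1 ∧ (⋃ d' ∈ E', Z d') ∈ (s d).1
      rw [hdisj]
      exact Filter.inter_mem_iff) (by
      intro d hd
      simp only [mem_ofPred_eq, mem_singleton_iff, iUnion_iUnion_eq_left] at hd
      exact hZs d hd)
  obtain ⟨z, hz⟩ := h1 (⋃ d' ∈ E, Z d')
  obtain ⟨C, hC, hC2⟩ := agree F h1 h2 g f hgf z
  apply hE
  have hsub : ((↑) : B → X) '' E ⊆ {d | (C ∩ colm e d).Nonempty} := by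
    rintro _ ⟨d, hd, rfl⟩
    have k1 : (⋃ d' ∈ E, Z d') ∈ (u d).1 :=
      mem_of_superset (hZu d) (subset_biUnion_of_mem (u := fun d => Z d) hd)
    have k2 : (⋃ d' ∈ E, Z d') ∉ (s d).1 := hEs d hd
    rw [hz, hFu, Ultrafilter.mem_map] at k1
    rw [hz, hFs, Ultrafilter.mem_map] at k2
    have k3 : C ∈ (p d).1 := by
      by_contra hCp
      exact k2 ((hC2 (p d) hCp).1 k1)
    have k4 : C ∩ colm e d ∈ (p d).1 := inter_mem k3 (hp1 d)
    exact Ultrafilter.nonempty_of_mem k4
  have hc := (countable_hit e C hC).mono hsub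
  have hm : MapsTo ((↑) : B → X) E (((↑) : B → X) '' E) := mapsTo_image _ _
  exact hm.countable_of_injOn Subtype.val_injective.injOn hc

include h1 h2 in
theorem core_false [Uncountable X] : False := by
  classical
  obtain ⟨e⟩ : Nonempty (X ≃ X × ℕ) := by
    have h : Cardinal.mk (X × ℕ) = Cardinal.mk X := by
      rw [Cardinal.mk_prod, Cardinal.mk_nat, Cardinal.lift_aleph0, Cardinal.lift_uzero]
      exact Cardinal.mul_aleph0_eq (Cardinal.aleph0_le_mk X)
    exact Cardinal.eq.1 h.symm
  choose h hh using fun d : X => h1 (colm e d)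
  have hcinf : ∀ d, (colm e d).Infinite := by
    intro d
    have hinj : Function.Injective (fun n : ℕ => e.symm (d, n)) := by
      intro a b hab
      have := e.symm.injective hab
      exact (Prod.mk.inj this).2
    refine (infinite_range_of_injective hinj).mono ?_
    rintro _ ⟨n, rfl⟩
    show (e (e.symm (d, n))).1 = d
    rw [Equiv.apply_symm_apply]
  have hhinf : ∀ d, (h d).Infinite := by
    intro d hfin
    obtain ⟨p, hp⟩ := exists_rem_of_infinite (hcinf d)
    exact (F p).finite_notMem hfin ((hh d p).1 hp)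
  let g : X → ℕ := fun x => Nat.nth (· ∈ h (e x).1) (e x).2
  have hginj : ∀ d, InjOn g (colm e d) := by
    intro d x hx y hy hxy
    have hx' : (e x).1 = d := hx
    have hy' : (e y).1 = d := hy
    simp only [g] at hxy
    rw [hx', hy'] at hxy
    have := Nat.nth_injective (hhinf d) hxy
    apply e.injective
    exact Prod.ext (by rw [hx', hy']) this
  have hgmem : ∀ d, ∀ x ∈ colm e d, g x ∈ h d := by
    intro d x hx
    have hx' : (e x).1 = d := hx
    simp only [g]
    rw [hx']
    exact Nat.nth_mem_of_infinite (hhinf d) _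
  obtain ⟨f, hgf⟩ := transfer F h1 g
  have hbad := bad_countable F h1 h2 e h hh g hginj hgmem f hgf
  set B : Set X := {d | ∃ p : Rem X, colm e d ∈ p.1 ∧ p.1.map g ≠ (F p).1.map f} with hB
  -- `f` is finite to one on `h d`
  have hfin : ∀ d n, (h d ∩ f ⁻¹' {n}).Finite := by
    intro d n
    by_contra hinf
    obtain ⟨q, hq⟩ := exists_rem_of_infinite hinf
    have hq1 : colm e d ∈ (F.symm q).1 := by
      rw [hh, F.apply_symm_apply]
      exact mem_of_superset hq inter_subset_left
    have hq2 : g ⁻¹' {n} ∈ (F.symm q).1 := by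
      rw [hgf, F.apply_symm_apply]
      exact mem_of_superset hq inter_subset_right
    refine (F.symm q).finite_notMem (Set.Subsingleton.finite ?_) (inter_mem hq1 hq2)
    rintro a ⟨ha1, ha2⟩ b ⟨hb1, hb2⟩
    apply hginj d ha1 hb1
    simp only [mem_preimage, mem_singleton_iff] at ha2 hb2
    rw [ha2, hb2]
  have hQ : ∀ d, ∃ Q : Set ℕ, Q ⊆ h d ∧ Q.Infinite ∧ InjOn f Q := by
    intro d
    have him : (f '' h d).Infinite := by
      intro hf
      apply hhinf d
      have : h d ⊆ ⋃ n ∈ f '' h d, h d ∩ f ⁻¹' {n} := by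
        intro m hm
        simp only [mem_iUnion]
        exact ⟨f m, ⟨m, hm, rfl⟩, hm, rfl⟩
      exact (hf.biUnion fun n _ => hfin d n).subset this
    obtain ⟨Q, hQ1, hQ2⟩ := (surjOn_image f (h d)).exists_bijOn_subset
    refine ⟨Q, hQ1, ?_, hQ2.injOn⟩
    intro hQf
    apply him
    rw [← hQ2.image_eq]
    exact hQf.image f
  choose Q hQs hQi hQinj using hQ
  choose q hq using fun d => exists_rem_of_infinite (hQi d)
  let k : X → ℕ → ℕ := fun d => Function.invFunOn f (Q d)
  let g' : X → ℕ := fun x => k (e x).1 (g x)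
  obtain ⟨C, hC, hC2⟩ := noImage F h1 h2 g'
  have hall : Bᶜ ⊆ {d | (C ∩ colm e d).Nonempty} := by
    intro d hd
    set p : Rem X := F.symm (q d) with hp
    have hFp : F p = q d := F.apply_symm_apply _
    have hcp : colm e d ∈ p.1 := by
      rw [hh, hFp]
      exact mem_of_superset (hq d) (hQs d)
    have hCp : C ∈ p.1 := by
      by_contra hCp
      apply hC2 p hCp
      have hgp : p.1.map g = (F p).1.map f := by
        by_contra hne
        exact hd ⟨p, hcp, hne⟩
      have e1 : p.1.map g' = p.1.map (k d ∘ g) := by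
        apply Ultrafilter.coe_injective
        simp only [Ultrafilter.coe_map]
        apply Filter.map_congr
        filter_upwards [hcp] with x hx
        have hx' : (e x).1 = d := hx
        simp only [g', Function.comp]
        rw [hx']
      have e2 : (F p).1.map (k d ∘ f) = (F p).1 := by
        apply Ultrafilter.coe_injective
        simp only [Ultrafilter.coe_map]
        conv_rhs => rw [← Filter.map_id (f := ((F p).1 : Filter ℕ))]
        apply Filter.map_congr
        have : Q d ∈ (F p).1 := by rw [hFp]; exact hq d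
        filter_upwards [this] with m hm
        simp only [Function.comp, id]
        exact (hQinj d).leftInvOn_invFunOn hm
      rw [e1, ← Ultrafilter.map_map, hgp, Ultrafilter.map_map, e2]
    exact Ultrafilter.nonempty_of_mem (inter_mem hCp hcp)
  have hBc : (Bᶜ).Countable := (countable_hit e C hC).mono hall
  have : (univ : Set X).Countable := by
    rw [← union_compl_self B]
    exact hbad.union hBc
  exact not_countable (countable_univ_iff.1 this)

end main

section topological

lemma rem_isClosed (X : Type u) : IsClosed {p : Ultrafilter X | ∀ x : X, p ≠ pure x} := by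
  have : {p : Ultrafilter X | ∀ x : X, p ≠ pure x} = ⋂ x : X, {p | ({x}ᶜ : Set X) ∈ p} := by
    ext p
    simp only [mem_ofPred_eq, mem_iInter]
    constructor
    · intro h x
      rw [Ultrafilter.compl_mem_iff_notMem]
      intro hx
      obtain ⟨y, -, hy⟩ := Ultrafilter.eq_pure_of_finite_mem (finite_singleton x) hx
      exact h y hy
    · intro h x hx
      have h3 := h x
      rw [hx] at h3
      simp at h3
  rw [this]
  exact isClosed_iInter fun x => ultrafilter_isClosed_basic _

lemma rem_compact (X : Type u) : CompactSpace (Rem X) :=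
  isCompact_iff_compactSpace.1 (rem_isClosed X).isCompact

lemma clopen_rep {X : Type u} (K : Set (Rem X)) (hK : IsClopen K) :
    ∃ A : Set X, ∀ p : Rem X, p ∈ K ↔ A ∈ p.1 := by
  haveI := rem_compact X
  have hb : TopologicalSpace.IsTopologicalBasis
      (range fun A : Set X => {p : Rem X | A ∈ p.1}) := by
    have h3 := (ultrafilterBasis_is_basis (α := X)).isInducing
      (f := (Subtype.val : Rem X → Ultrafilter X)) IsInducing.subtypeVal
    convert h3 using 1
    ext U
    simp only [mem_range, mem_image, ultrafilterBasis]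
    constructor
    · rintro ⟨A, rfl⟩
      exact ⟨_, ⟨A, rfl⟩, rfl⟩
    · rintro ⟨_, ⟨A, rfl⟩, rfl⟩
      exact ⟨A, rfl⟩
  obtain ⟨s, hs, hKs⟩ := eq_finite_iUnion_of_isTopologicalBasis_of_isCompact_open _ hb K
    hK.1.isCompact hK.2
  refine ⟨⋃ A ∈ s, A, fun p => ?_⟩
  rw [hKs, Ultrafilter.finite_biUnion_mem_iff hs]
  simp

theorem no_homeo (X : Type u) [Uncountable X] : IsEmpty (Rem X ≃ₜ Rem ℕ) := by
  refine ⟨fun F => ?_⟩
  refine core_false F.toEquiv ?_ ?_
  · intro A
    have hA : IsClopen {p : Rem X | A ∈ p.1} :=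
      ⟨(ultrafilter_isClosed_basic A).preimage continuous_subtype_val,
        (ultrafilter_isOpen_basic A).preimage continuous_subtype_val⟩
    obtain ⟨a, ha⟩ := clopen_rep _ (hA.preimage F.symm.continuous)
    refine ⟨a, fun p => ?_⟩
    have := ha (F p)
    simp only [mem_preimage, mem_ofPred_eq, Homeomorph.symm_apply_apply] at this
    exact this
  · intro a
    have hA : IsClopen {p : Rem ℕ | a ∈ p.1} :=
      ⟨(ultrafilter_isClosed_basic a).preimage continuous_subtype_val,
        (ultrafilter_isOpen_basic a).preimage continuous_subtype_val⟩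
    obtain ⟨A, hA⟩ := clopen_rep _ (hA.preimage F.continuous)
    refine ⟨A, fun p => ?_⟩
    have := hA p
    simp only [mem_preimage, mem_ofPred_eq] at this
    exact this.symm

/-- Transport of the space of ultrafilters along a bijection. -/
noncomputable def ultraHomeo {X : Type u} {Y : Type v} (e : X ≃ Y) :
    Ultrafilter X ≃ₜ Ultrafilter Y where
  toFun p := p.map e
  invFun q := q.map e.symm
  left_inv p := by
    show (p.map e).map e.symm = p
    rw [Ultrafilter.map_map]
    have : (e.symm ∘ e : X → X) = id := by ext x; simp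
    rw [this, Ultrafilter.map_id]
  right_inv q := by
    show (q.map e.symm).map e = q
    rw [Ultrafilter.map_map]
    have : (e ∘ e.symm : Y → Y) = id := by ext x; simp
    rw [this, Ultrafilter.map_id]
  continuous_toFun := by
    refine (ultrafilterBasis_is_basis (α := Y)).continuous_iff.2 ?_
    rintro _ ⟨A, rfl⟩
    exact ultrafilter_isOpen_basic (e ⁻¹' A)
  continuous_invFun := by
    refine (ultrafilterBasis_is_basis (α := X)).continuous_iff.2 ?_
    rintro _ ⟨A, rfl⟩
    exact ultrafilter_isOpen_basic (e.symm ⁻¹' A)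

/-- Transport of the remainder along a bijection. -/
noncomputable def remHomeo {X : Type u} {Y : Type v} (e : X ≃ Y) : Rem X ≃ₜ Rem Y :=
  (ultraHomeo e).subtype (by
    intro p
    constructor
    · intro h y hy
      apply h (e.symm y)
      have : (ultraHomeo e).symm ((ultraHomeo e) p) = (ultraHomeo e).symm (pure y) := by rw [hy]
      rw [Homeomorph.symm_apply_apply] at this
      rw [this]
      show (pure y : Ultrafilter Y).map e.symm = pure (e.symm y)
      exact Ultrafilter.map_pure _ _
    · intro h x hx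
      apply h (e x)
      rw [hx]
      exact Ultrafilter.map_pure _ _)

/-- For a discrete space the Stone-Cech compactification is the space of ultrafilters. -/
noncomputable def stoneCechHomeo (D : Type u) [TopologicalSpace D] [DiscreteTopology D] :
    StoneCech D ≃ₜ Ultrafilter D where
  toFun := stoneCechExtend (g := (pure : D → Ultrafilter D)) continuous_of_discreteTopology
  invFun := Ultrafilter.extend (stoneCechUnit : D → StoneCech D)
  left_inv := by
    have hc : Continuous (Ultrafilter.extend (stoneCechUnit : D → StoneCech D) ∘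
        stoneCechExtend (g := (pure : D → Ultrafilter D)) continuous_of_discreteTopology) :=
      (continuous_ultrafilter_extend _).comp (continuous_stoneCechExtend _)
    have := stoneCech_hom_ext (α := D) hc continuous_id (by
      ext x
      simp only [Function.comp, id]
      rw [stoneCechExtend_stoneCechUnit, ultrafilter_extend_pure])
    exact fun x => congrFun this x
  right_inv := by
    have hc : Continuous (stoneCechExtend (g := (pure : D → Ultrafilter D))
        continuous_of_discreteTopology ∘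
        Ultrafilter.extend (stoneCechUnit : D → StoneCech D)) :=
      (continuous_stoneCechExtend _).comp (continuous_ultrafilter_extend _)
    have := denseRange_pure.equalizer hc continuous_id (by
      ext1 x
      simp only [Function.comp, id]
      rw [ultrafilter_extend_pure, stoneCechExtend_stoneCechUnit])
    exact fun x => congrFun this x
  continuous_toFun := continuous_stoneCechExtend _
  continuous_invFun := continuous_ultrafilter_extend _

/-- The remainder of the Stone-Cech compactification of a discrete space is the space of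
nonprincipal ultrafilters. -/
noncomputable def stoneCechRemHomeo (D : Type u) [TopologicalSpace D] [DiscreteTopology D] :
    ((range (stoneCechUnit : D → StoneCech D))ᶜ : Set (StoneCech D)) ≃ₜ Rem D :=
  (stoneCechHomeo D).subtype (by
    intro p
    have key : ∀ x : D, stoneCechHomeo D (stoneCechUnit x) = pure x := fun x =>
      stoneCechExtend_stoneCechUnit
        (g := (pure : D → Ultrafilter D)) (hg := continuous_of_discreteTopology) x
    constructor
    · intro h x hx
      apply h
      refine ⟨x, ?_⟩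
      apply (stoneCechHomeo D).injective
      rw [key, hx]
    · rintro h ⟨x, rfl⟩
      exact h x (key x))

end topological

/-- **Axiom Omega fails.** If `D₀` is a countably infinite discrete space and `D₁` is an
uncountable discrete space (for instance one of cardinality `ℵ₁`), then the Stone-Cech remainders
`βD₀ \ D₀` and `βD₁ \ D₁` are not homeomorphic. -/
theorem result (D₀ : Type u) (D₁ : Type v) [TopologicalSpace D₀] [DiscreteTopology D₀]
    [TopologicalSpace D₁] [DiscreteTopology D₁]
    (h₀ : Cardinal.mk D₀ = Cardinal.aleph0) (h₁ : Cardinal.aleph 1 ≤ Cardinal.mk D₁) :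
    IsEmpty (((range (stoneCechUnit : D₀ → StoneCech D₀))ᶜ : Set (StoneCech D₀)) ≃ₜ
      ((range (stoneCechUnit : D₁ → StoneCech D₁))ᶜ : Set (StoneCech D₁))) := by
  refine ⟨fun F => ?_⟩
  have : Uncountable D₁ := by
    rw [← Cardinal.aleph0_lt_mk_iff]
    exact lt_of_lt_of_le Cardinal.aleph0_lt_aleph_one h₁
  obtain ⟨hden⟩ := Cardinal.denumerable_iff.2 h₀
  have e : D₀ ≃ ℕ := Denumerable.eqv D₀
  exact (no_homeo D₁).false
    ((((stoneCechRemHomeo D₁).symm.trans F.symm).trans (stoneCechRemHomeo D₀)).trans (remHomeo e))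

end Pool.Agent.Results.MP_671f97_gt.Katowice
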